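import Pool.Agent.H778R3.Flex

/-!
# Q2: 2-degenerate graphs with lists of size 3 need not be flexible

For every `k` there are a 2-degenerate graph with `5k+1` vertices, lists of size 3 and a request
with a domain of size `k` of which every list colouring satisfies at most one member. So for
`d = 2` there is no `ε > 0` for which all pairs are `ε`-flexible, and the answer to Q2 (hence also
to Q1) is no.
-/

namespace Pool.Agent.Results.MP_1bc7ab_co.NotFlexible

/-- Every nonempty set of vertices contains a vertex with at most `d` neighbours in the set. -/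
def Degenerate {V : Type} (G : SimpleGraph V) (d : ℕ) : Prop :=
  ∀ S : Finset V, S.Nonempty → ∃ v ∈ S, ({u : V | u ∈ S ∧ G.Adj v u}).ncard ≤ d

/-- `φ` is a proper colouring of `G` with colours from the lists. -/
def IsListColouring {V : Type} (G : SimpleGraph V) (L : V → Finset ℕ) (φ : V → ℕ) : Prop :=
  (∀ v, φ v ∈ L v) ∧ ∀ u v, G.Adj u v → φ u ≠ φ v

/-- The pair `(G, L)` is `ε`-flexible: for every request `r` with domain `D`, some list colouring
agrees with `r` on at least `ε |D|` members of `D`. -/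
def Flexible {V : Type} (G : SimpleGraph V) (L : V → Finset ℕ) (ε : ℝ) : Prop :=
  ∀ (D : Finset V) (r : V → ℕ), (∀ v ∈ D, r v ∈ L v) →
    ∃ φ : V → ℕ, IsListColouring G L φ ∧ ε * (D.card : ℝ) ≤ ((D.filter (fun v => φ v = r v)).card : ℝ)

/-- The answer to Q2 is no: it is not true that for every `d` there is `ε > 0` such that all
`d`-degenerate finite graphs with lists of size `d + 1` are `ε`-flexible. -/
theorem result : ¬ (∀ d : ℕ, ∃ ε : ℝ, 0 < ε ∧ ∀ (V : Type) [Finite V] (G : SimpleGraph V),
    Degenerate G d → ∀ L : V → Finset ℕ, (∀ v, (L v).card = d + 1) → Flexible G L ε) := by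
  intro h
  obtain ⟨ε, hε, h⟩ := h 2
  obtain ⟨k, hk⟩ := exists_nat_gt (1 / ε)
  have hk' : 1 < ε * k := by
    rw [div_lt_iff₀ hε] at hk
    linarith
  obtain ⟨φ, ⟨hL, hφ⟩, hw⟩ := h (Fin (5 * k + 1)) (Pool.Agent.H778R3.Flex.G k)
    (Pool.Agent.H778R3.Flex.degenerate k) (fun v => Pool.Agent.H778R3.Flex.L v)
    (fun v => Pool.Agent.H778R3.Flex.card_L v) (Pool.Agent.H778R3.Flex.dom k) (fun _ => 2)
    (by
      intro v hv
      have h4 : (v : ℕ) % 5 = 4 := by
        simpa [Pool.Agent.H778R3.Flex.dom] using hv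
      have hL4 : Pool.Agent.H778R3.Flex.L (v : ℕ) = {0, 2, 4} := by
        unfold Pool.Agent.H778R3.Flex.L
        simp [h4]
      change 2 ∈ Pool.Agent.H778R3.Flex.L (v : ℕ)
      rw [hL4]
      simp)
  have hsat := Pool.Agent.H778R3.Flex.card_sat φ hL hφ
  have hd := Pool.Agent.H778R3.Flex.card_dom k
  rw [hd] at hw
  have h1 : ((Pool.Agent.H778R3.Flex.dom k).filter (fun v => φ v = 2)).card ≤ 1 := by
    unfold Pool.Agent.H778R3.Flex.dom
    rw [Finset.filter_filter]
    exact hsat
  have h2 : (((Pool.Agent.H778R3.Flex.dom k).filter (fun v => φ v = 2)).card : ℝ) ≤ 1 := by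
    exact_mod_cast h1
  linarith

end Pool.Agent.Results.MP_1bc7ab_co.NotFlexible
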